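import Pool.Agent.Y774.FS.Final

set_option autoImplicit false

open Metric Set

namespace Pool.Agent.Y774.FS

open Pool.Agent.Helper974

/-- the slope at the end point -/
noncomputable def D (M : ℝ) : ℝ :=
  max (4 * (3 / M - 1)) (2 / M * (Real.sqrt (1 - 1 / M) + (2 - 3 / M) * Real.log (Real.sqrt M + Real.sqrt (M - 1))) /
    (Real.sqrt (1 - 1 / M) - 1 / M * Real.log (Real.sqrt M + Real.sqrt (M - 1))))

/-- the inequality at the one slit map, with the slope `D M` -/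
lemma pick_line' {M : ℝ} (hM : 1 < M) {g : ℂ → ℂ} (hg : Star.LogClass M g) :
    (deriv (deriv g) 0 / 2).re ≤ (1 - 1 / M) * (1 - 3 / M) + D M * ((1 - 1 / M) - (deriv g 0).re / 2) := by
  have hMp : 0 < M := by linarith
  have e1 : Real.log (Real.sqrt M + Real.sqrt (M - 1)) =
      Real.log ((1 + Real.sqrt (1 - 1 / M)) / Real.sqrt (1 / M)) := by
    congr 1
    have e2 : Real.sqrt (M - 1) = Real.sqrt M * Real.sqrt (1 - 1 / M) := by
      rw [← Real.sqrt_mul hMp.le]; congr 1; field_simp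
    have e3 : Real.sqrt (1 / M) = 1 / Real.sqrt M := by rw [Real.sqrt_div' _ hMp.le, Real.sqrt_one]
    rw [e2, e3]
    field_simp
  have e3' : 3 / M = 3 * (1 / M) := by ring
  have e2' : 2 / M = 2 * (1 / M) := by ring
  unfold D
  rw [e1, e3', e2']
  set t : ℝ := 1 / M with ht
  have ht0 : 0 < t := by positivity
  have ht1 : t < 1 := by rw [ht, div_lt_one hMp]; exact hM
  have hMt : M * t = 1 := by rw [ht]; field_simp
  obtain ⟨-, hK, -⟩ := Star.B10pM.B10_ccP (a := 1 - 2 * t) (t := t) (by linarith) (by linarith) (by ring)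
  have hLL : StarP.Cert.LL t = Real.log ((1 + Real.sqrt (1 - t)) / Real.sqrt t) := rfl
  set K : ℝ := 2 * Real.sqrt (1 - t) - 2 * t * Real.log ((1 + Real.sqrt (1 - t)) / Real.sqrt t) with hKdef
  set L : ℝ := Real.log ((1 + Real.sqrt (1 - t)) / Real.sqrt t) with hL
  set A0 : ℝ := Real.sqrt (1 - t) * t - t * (2 - t) * StarP.Cert.LL t with hA0
  have hG : ∀ c : ℝ, 4 * StarP.Cert.Gam t c 1 = A0 - c * K := by
    intro c
    rw [StarP.Cert.Gam_one c ht0 ht1, hKdef, hA0, hLL]; ring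
  set c : ℝ := min (1 - 2 * t) (A0 / K) with hc
  have hD : max (4 * (3 * t - 1)) (2 * t * (Real.sqrt (1 - t) + (2 - 3 * t) * L) /
      (Real.sqrt (1 - t) - t * L)) = 4 * (t - c) := by
    have h1 : 2 * t * (Real.sqrt (1 - t) + (2 - 3 * t) * L) / (Real.sqrt (1 - t) - t * L) =
        4 * (t - A0 / K) := by
      have h2 : Real.sqrt (1 - t) - t * L = K / 2 := by rw [hKdef]; ring
      have h3 : K = 2 * Real.sqrt (1 - t) - 2 * t * L := rfl
      rw [h2, div_eq_iff (by positivity)]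
      have h4 : A0 / K * K = A0 := div_mul_cancel₀ _ hK.ne'
      have h5 : A0 = Real.sqrt (1 - t) * t - t * (2 - t) * L := by rw [hA0, hLL]
      have h6 : 4 * (t - A0 / K) * (K / 2) = 2 * t * K - 2 * (A0 / K * K) := by ring
      rw [h6, h4, h5, h3]
      ring
    rw [h1, hc]
    rcases le_total (1 - 2 * t) (A0 / K) with h | h
    · rw [min_eq_left h, max_eq_left (by linarith)]; ring
    · rw [min_eq_right h, max_eq_right (by linarith)]
  have h1 : c ≤ 1 - 2 * t := min_le_left _ _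
  have h2 : c ≤ A0 / K := min_le_right _ _
  have h3 : 0 ≤ StarP.Cert.Gam t c 1 := by
    have := hG c
    rw [le_div_iff₀ hK] at h2
    linarith
  have := StarP.Cert.cert ht0 ht1 h1 h3 hMp hg.diff hg.zero hg.star hg.bdd
  rw [hMt, Real.log_one, mul_zero] at this
  rw [hD]
  linarith

/-- the Pick function is extremal -/
theorem pick_max {M l : ℝ} (hM : 1 < M) (hl : l ≤ 1 / 2) (h : D M ≤ 2 * (1 - 2 * l) * (1 - 1 / M)) :
    IsGreatest ((fun f => ‖fs l f‖) '' Star3.StarClass M)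
      ((1 - 1 / M) * (3 - 5 / M) - 4 * l * (1 - 1 / M) ^ 2) := by
  have hM0 : 0 < M := by linarith
  have hX : 0 < 1 - 1 / M := by
    have : 1 / M < 1 := by rw [div_lt_one hM0]; exact hM
    linarith
  have key : ∀ g : ℂ → ℂ, Star.LogClass M g → ‖deriv (deriv g) 0 / 2 + ((1 / 2 - l : ℝ) : ℂ) * deriv g 0 ^ 2‖ ≤
      (1 - 1 / M) * (3 - 5 / M) - 4 * l * (1 - 1 / M) ^ 2 := by
    intro g hg
    refine norm_le_kappa (κ := 1 / 2 - l) (by linarith) (fun g hg h0 => ?_) hg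
    have h1 := pick_line' hM hg
    have h2 := (Star.one_slit hM hg).1
    set x := (deriv g 0).re / 2 with hx
    have hx' : (deriv g 0).re = 2 * x := by rw [hx]; ring
    have hx0 : 0 ≤ x := by linarith
    rw [hx']
    have h3 : D M * ((1 - 1 / M) - x) ≤ 2 * (1 - 2 * l) * (1 - 1 / M) * ((1 - 1 / M) - x) :=
      mul_le_mul_of_nonneg_right h (by linarith)
    have h4 : 0 ≤ (1 - 2 * l) * (x * ((1 - 1 / M) - x)) :=
      mul_nonneg (by linarith) (mul_nonneg hx0 (by linarith))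
    have e5 : 5 / M = 5 * (1 / M) := by ring
    have e3 : 3 / M = 3 * (1 / M) := by ring
    rw [e3] at h1
    rw [e5]
    nlinarith
  refine ⟨?_, ?_⟩
  · obtain ⟨f, hf, g, hg, hfg, h4, h5⟩ := pick_log hM
    obtain ⟨e1, e2⟩ := coeffs hg hfg
    refine ⟨f, hf, ?_⟩
    simp only
    have e : fs l f = (((1 - 1 / M) * (3 - 5 / M) - 4 * l * (1 - 1 / M) ^ 2 : ℝ) : ℂ) := by
      rw [fs_eq l e1 e2, h4, h5]; push_cast; ring
    have h6 : 0 ≤ (1 - 1 / M) * (3 - 5 / M) - 4 * l * (1 - 1 / M) ^ 2 := (norm_nonneg _).trans (key g hg)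
    rw [e, Complex.norm_real, Real.norm_eq_abs, abs_of_nonneg h6]
  · rintro _ ⟨f, hf, rfl⟩
    obtain ⟨g, hg, h1, h2⟩ := class_log hf
    simp only
    rw [fs_eq l h1 h2]
    exact key g hg

open Star3 in
/-- the whole statement -/
theorem main :
    (∀ M : ℝ, 1 < M →
      (∀ f ∈ StarClass M, ‖coeff2 f‖ ≤ 2 * (1 - 1 / M)) ∧
      (∀ x : ℝ, 0 ≤ x → x < 1 - 1 / M → ∃ a b : ℝ, IsSlit M a b ∧ X a b = x) ∧
      (∀ a b : ℝ, IsSlit M a b → IsGreatest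
        ((fun f => (fs (1 / 2) f).re) '' {f | f ∈ StarClass M ∧ (coeff2 f).re = 2 * X a b}) (Y a b)) ∧
      IsGreatest ((fun f => (fs (1 / 2) f).re) '' {f | f ∈ StarClass M ∧
        (coeff2 f).re = 2 * (1 - 1 / M)}) ((1 - 1 / M) * (1 - 3 / M))) ∧
    (∀ M l : ℝ, 1 < M → l ≤ 1 / 2 → ∃ V : ℝ,
      IsGreatest ((fun f => ‖fs l f‖) '' StarClass M) V ∧
      IsGreatest ({v | ∃ a b : ℝ, IsSlit M a b ∧ v = Y a b + 2 * (1 - 2 * l) * X a b ^ 2} ∪
        {(1 - 1 / M) * (3 - 5 / M) - 4 * l * (1 - 1 / M) ^ 2}) V) ∧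
    (∀ M l : ℝ, 1 < M → l ≤ 1 / 2 → D M ≤ 2 * (1 - 2 * l) * (1 - 1 / M) →
      IsGreatest ((fun f => ‖fs l f‖) '' StarClass M)
        ((1 - 1 / M) * (3 - 5 / M) - 4 * l * (1 - 1 / M) ^ 2)) ∧
    (∀ M : ℝ, 1 < M → IsGreatest ((fun f => ‖fs (1 / 2) f‖) '' StarClass M) (1 - 1 / M ^ 2)) ∧
    ∃ Mb M1 : ℝ, Real.exp 1 < Mb ∧ Mb < M1 ∧ M1 < 33 / 10 ∧
      (∀ M : ℝ, 1 < M → (M = Mb ↔
        (∫ ψ in (0 : ℝ)..Real.pi, Real.sqrt (1 - (1 - 1 / M ^ 2) * Real.cos ψ ^ 2)) =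
          (1 / M) * (Real.sqrt (1 - 1 / M ^ 2) + 1 / M) *
            ∫ ψ in (0 : ℝ)..Real.pi, 1 / Real.sqrt (1 - (1 - 1 / M ^ 2) * Real.cos ψ ^ 2))) ∧
      (∀ M : ℝ, 1 < M → (M = M1 ↔
        (2 * M - 3) * Real.sqrt (1 - 1 / M) = (4 - 5 / M) * Real.log (Real.sqrt M + Real.sqrt (M - 1)))) ∧
      (∀ M l : ℝ, 1 < M → M ≤ Mb → 0 ≤ l → l ≤ 1 / 2 →
        IsGreatest ((fun f => ‖fs l f‖) '' StarClass M) (1 - 1 / M ^ 2)) ∧
      (∀ M : ℝ, Mb < M → M < M1 → ∃ a b : ℝ, (IsSlit M a b ∧ a + b < 0 ∧ T a b = a + b + c a b) ∧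
        (∀ a' b' : ℝ, IsSlit M a' b' → a' + b' < 0 → T a' b' = a' + b' + c a' b' → a' = a ∧ b' = b) ∧
        IsGreatest ((fun f => ‖coeff3 f‖) '' StarClass M) (Y a b + 2 * X a b ^ 2)) ∧
      (∀ M l : ℝ, M1 ≤ M → l ≤ 0 →
        IsGreatest ((fun f => ‖fs l f‖) '' StarClass M)
          ((1 - 1 / M) * (3 - 5 / M) - 4 * l * (1 - 1 / M) ^ 2)) := by
  refine ⟨fun M hM => region hM, fun M l hM hl => ?_, fun M l hM hl h => pick_max hM hl h,
    fun M hM => half_value hM, ?_⟩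
  · obtain ⟨V, h1, h2⟩ := maximum hM hl
    refine ⟨V, h1, ?_⟩
    have e : (1 - 1 / M) * (1 - 3 / M) + 2 * (1 - 2 * l) * (1 - 1 / M) ^ 2 =
        (1 - 1 / M) * (3 - 5 / M) - 4 * l * (1 - 1 / M) ^ 2 := by ring
    rw [← e]
    exact h2
  · obtain ⟨Mb, M1, h1, h2, h3, h4, h5, h6, h7, h8⟩ := Star3.main
    have he := Real.add_one_le_exp (1 : ℝ)
    refine ⟨Mb, M1, h1, h2, h3, h4, h5, fun M l hM hMb hl0 hl => small hM hl0 hl (h6 M hM hMb).1, ?_,
      fun M l hM hl => large (by linarith) (by linarith) hl (h8 M hM).1⟩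
    intro M hM hM'
    obtain ⟨a, b, e1, e2, e3, -⟩ := h7 M hM hM'
    obtain ⟨p1, p2, p3, p4, p5, p6⟩ := e1
    refine ⟨a, b, ⟨⟨p1, p2, p3, p6⟩, p4, p5⟩, ?_, ?_⟩
    · rintro a' b' ⟨q1, q2, q3, q4⟩ q5 q6
      exact e2 a' b' ⟨q1, q2, q3, q5, q6, q4⟩
    · have e : Y a b + 2 * X a b ^ 2 = value a b := by
        unfold Y X value; ring
      rw [e]
      exact e3

end Pool.Agent.Y774.FS
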