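import Pool.Agent.Y774.FS.Main

set_option autoImplicit false

open Complex Filter Topology Metric Set MeasureTheory

namespace Pool.Agent.Y774.FS

open Pool.Agent.Helper974 Pool.Agent.Helper974.Star

/-- parameters of the slit maps with maximum modulus `M` -/
def Par (M a b : ℝ) : Prop := -1 < b ∧ b < a ∧ a < 1 ∧ ll a b = Real.log M

theorem level {M : ℝ} (hM : 1 < M) : ∀ x : ℝ, 0 ≤ x → x < 1 - 1 / M → ∃ a b : ℝ, Par M a b ∧ xx a b = x := by
  obtain ⟨kb, t1, h1, h2, h3, h4, h5, h6, h7, h8, h9, h10, h11, h12, h13, h14, h15⟩ :=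
    Pool.Agent.Helper974.StarQ.Star.inputs
  have key : ∀ P : ℝ, HX M P → ∀ x : ℝ, 0 ≤ x → x < 1 - 1 / M → ∃ a b : ℝ, Par M a b ∧ xx a b = x := by
    intro P hP x hx0 hx1
    obtain ⟨a, b, e1, e2, e3, e4, e5, -⟩ := hP x hx0 hx1
    exact ⟨a, b, ⟨e1, e2, e3, e4⟩, e5⟩
  rcases le_or_gt M (1 / Real.sqrt (1 - kb ^ 2)) with h | h
  · exact key _ (h13 M hM h).2
  · rcases lt_or_ge M (1 / t1) with h' | h'
    · obtain ⟨a, b, -, -, -, h16⟩ := h14 M h h'
      exact key _ h16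
    · exact key _ (h15 M h')

/-- the slit map with parameters `a, b` -/
theorem slit_map {M a b : ℝ} (hM : 1 < M) (h : Par M a b) : ∃ f ∈ Star.StarClass M, ∃ g : ℂ → ℂ,
    Star.LogClass M g ∧ (∀ z ∈ ball (0 : ℂ) 1, f z = z * Complex.exp (g z)) ∧
    deriv g 0 = ((2 * xx a b : ℝ) : ℂ) ∧ deriv (deriv g) 0 / 2 = ((Vc a b : ℝ) : ℂ) := by
  obtain ⟨hb, hba, ha, hl⟩ := h
  obtain ⟨g, hd, h0, hpos, hle, h1, h2, -⟩ := slit_all hb hba ha
  obtain ⟨hL, f, hfg, hf1, hf2, hf3, hf4, hf5, hf6, hf7⟩ := A12M.A14_mem hd h0 hpos hle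
  have e : Real.exp (ll a b) = M := by rw [hl, Real.exp_log (by linarith)]
  rw [e] at hL hf6
  exact ⟨f, ⟨hf1, hf2, hf3, hf4, hf5, hf6⟩, g, hL, hfg, h1, h2⟩

/-- the line at a slit map -/
theorem slit_line {M a b : ℝ} (hM : 1 < M) (h : Par M a b) {g : ℂ → ℂ} (hg : Star.LogClass M g) :
    (deriv (deriv g) 0 / 2).re ≤ Vc a b - Lc a b * ((deriv g 0).re / 2 - xx a b) := by
  obtain ⟨hb, hba, ha, hl⟩ := h
  have := cert_all hb hba ha (by linarith) hg
  rw [hl, sub_self, mul_zero, add_zero] at this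
  exact this

open Classical in
/-- the upper boundary of the coefficient region -/
noncomputable def hM (M : ℝ) (x : ℝ) : ℝ :=
  if h : ∃ a b : ℝ, Par M a b ∧ xx a b = x then Vc h.choose h.choose_spec.choose
  else (1 - 1 / M) * (1 - 3 / M)

theorem hM_spec {M : ℝ} {x : ℝ} (h : ∃ a b : ℝ, Par M a b ∧ xx a b = x) :
    ∃ a b : ℝ, Par M a b ∧ xx a b = x ∧ hM M x = Vc a b := by
  refine ⟨h.choose, h.choose_spec.choose, h.choose_spec.choose_spec.1, h.choose_spec.choose_spec.2, ?_⟩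
  unfold hM
  rw [dif_pos h]

/-- every slit parameter has `xx < 1 - 1 / M` -/
theorem xx_le {M a b : ℝ} (hM' : 1 < M) (h : Par M a b) : |xx a b| ≤ 1 - 1 / M := by
  obtain ⟨f, -, g, hg, -, h1, -⟩ := slit_map hM' h
  have := second_le hM' hg
  rw [h1, Complex.norm_real, Real.norm_eq_abs, abs_mul, abs_two] at this
  linarith

/-- the value at the end point (whatever parameters there are) -/
theorem hM_le_line {M : ℝ} (hM' : 1 < M) {a b : ℝ} (h : Par M a b) {x : ℝ} (hx0 : 0 ≤ x)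
    (hx1 : x ≤ 1 - 1 / M) : hM M x ≤ Vc a b - Lc a b * (x - xx a b) := by
  by_cases hx : ∃ a b : ℝ, Par M a b ∧ xx a b = x
  · obtain ⟨a', b', h1, h2, h3⟩ := hM_spec hx
    obtain ⟨f, -, g, hg, -, h4, h5⟩ := slit_map hM' h1
    have h6 := slit_line hM' h hg
    rw [h5, h4, Complex.ofReal_re, Complex.ofReal_re] at h6
    rw [h3, ← h2]
    have e : 2 * xx a' b' / 2 = xx a' b' := by ring
    rw [e] at h6
    exact h6
  · have hx2 : x = 1 - 1 / M := by
      by_contra hne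
      exact hx (level hM' x hx0 (lt_of_le_of_ne hx1 hne))
    obtain ⟨f, -, g, hg, -, h4, h5⟩ := pick_log hM'
    have h6 := slit_line hM' h hg
    rw [h5, h4, Complex.ofReal_re, Complex.ofReal_re] at h6
    unfold hM
    rw [dif_neg hx, hx2]
    have e : 2 * (1 - 1 / M) / 2 = 1 - 1 / M := by ring
    rw [e] at h6
    exact h6

/-- every function of the class is below the curve -/
theorem le_hM {M : ℝ} (hM' : 1 < M) {g : ℂ → ℂ} (hg : Star.LogClass M g) (h0 : 0 ≤ (deriv g 0).re) :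
    (deriv g 0).re / 2 ≤ 1 - 1 / M ∧ (deriv (deriv g) 0 / 2).re ≤ hM M ((deriv g 0).re / 2) := by
  have h1 := (one_slit hM' hg).1
  refine ⟨h1, ?_⟩
  by_cases hx : ∃ a b : ℝ, Par M a b ∧ xx a b = (deriv g 0).re / 2
  · obtain ⟨a, b, e1, e2, e3⟩ := hM_spec hx
    have h6 := slit_line hM' e1 hg
    rw [e3]
    rw [e2, sub_self, mul_zero, sub_zero] at h6
    exact h6
  · have hx2 : (deriv g 0).re / 2 = 1 - 1 / M := by
      by_contra hne
      exact hx (level hM' _ (by linarith) (lt_of_le_of_ne h1 hne))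
    unfold hM
    rw [dif_neg hx]
    have h7 := (one_slit hM' hg).2 hx2
    refine h7.trans (le_of_eq ?_)
    have : 0 < M := by linarith
    field_simp
    ring

theorem end_value {M : ℝ} (hM' : 1 < M) : hM M (1 - 1 / M) = (1 - 1 / M) * (1 - 3 / M) := by
  have hMp : 0 < M := by linarith
  by_cases hx : ∃ a b : ℝ, Par M a b ∧ xx a b = 1 - 1 / M
  · obtain ⟨a, b, e1, e2, e3⟩ := hM_spec hx
    apply le_antisymm
    · obtain ⟨f, -, g, hg, -, h4, h5⟩ := slit_map hM' e1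
      have h7 := (one_slit hM' hg).2 (by rw [h4, Complex.ofReal_re, e2]; ring)
      rw [h5, Complex.ofReal_re] at h7
      rw [e3]
      refine h7.trans (le_of_eq ?_)
      field_simp
      ring
    · obtain ⟨f, -, g, hg, -, h4, h5⟩ := pick_log hM'
      have h6 := slit_line hM' e1 hg
      rw [h5, h4, Complex.ofReal_re, Complex.ofReal_re] at h6
      rw [e3]
      have e : 2 * (1 - 1 / M) / 2 = 1 - 1 / M := by ring
      rw [e, e2, sub_self, mul_zero, sub_zero] at h6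
      exact h6
  · unfold hM
    rw [dif_neg hx]

/-- attained values -/
theorem hM_attained {M : ℝ} (hM' : 1 < M) {x : ℝ} (hx0 : 0 ≤ x) (hx1 : x ≤ 1 - 1 / M) :
    ∃ f ∈ Star.StarClass M, ∃ g : ℂ → ℂ, Star.LogClass M g ∧
    (∀ z ∈ ball (0 : ℂ) 1, f z = z * Complex.exp (g z)) ∧
    deriv g 0 = ((2 * x : ℝ) : ℂ) ∧ deriv (deriv g) 0 / 2 = ((hM M x : ℝ) : ℂ) := by
  by_cases hx : ∃ a b : ℝ, Par M a b ∧ xx a b = x
  · obtain ⟨a, b, e1, e2, e3⟩ := hM_spec hx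
    obtain ⟨f, hf, g, hg, hfg, h4, h5⟩ := slit_map hM' e1
    exact ⟨f, hf, g, hg, hfg, by rw [h4, e2], by rw [h5, e3]⟩
  · have hx2 : x = 1 - 1 / M := by
      by_contra hne
      exact hx (level hM' _ hx0 (lt_of_le_of_ne hx1 hne))
    obtain ⟨f, hf, g, hg, hfg, h4, h5⟩ := pick_log hM'
    exact ⟨f, hf, g, hg, hfg, by rw [h4, hx2], by rw [h5, hx2, end_value hM']⟩

/-- upper semicontinuity from majorants -/
lemma usc_of_majorant {φ : ℝ → ℝ} {s : Set ℝ} (h : ∀ x ∈ s, ∃ L : ℝ → ℝ, Continuous L ∧ L x = φ x ∧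
    ∀ y ∈ s, φ y ≤ L y) : UpperSemicontinuousOn φ s := by
  intro x hx y hy
  obtain ⟨L, hL, hLx, hle⟩ := h x hx
  have h1 : ∀ᶠ z in 𝓝 x, L z < y := hL.continuousAt.eventually_lt continuousAt_const (by rw [hLx]; exact hy)
  filter_upwards [mem_nhdsWithin_of_mem_nhds h1, self_mem_nhdsWithin] with z hz hzs
  exact (hle z hzs).trans_lt hz

/-- the maximum over the curve -/
theorem exists_max {M κ : ℝ} (hM' : 1 < M) : ∃ x : ℝ, 0 ≤ x ∧ x ≤ 1 - 1 / M ∧ ∀ y : ℝ, 0 ≤ y →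
    y ≤ 1 - 1 / M → hM M y + 4 * κ * y ^ 2 ≤ hM M x + 4 * κ * x ^ 2 := by
  have hMp : 0 < M := by linarith
  have hX : 0 < 1 - 1 / M := by
    have : 1 / M < 1 := by rw [div_lt_one hMp]; exact hM'
    linarith
  have husc : UpperSemicontinuousOn (fun y => hM M y + 4 * κ * y ^ 2) (Icc 0 (1 - 1 / M)) := by
    apply usc_of_majorant
    rintro x ⟨hx0, hx1⟩
    by_cases hx : ∃ a b : ℝ, Par M a b ∧ xx a b = x
    · obtain ⟨a, b, e1, e2, e3⟩ := hM_spec hx
      refine ⟨fun y => Vc a b - Lc a b * (y - xx a b) + 4 * κ * y ^ 2, by fun_prop, ?_, ?_⟩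
      · simp only [e2, e3, sub_self, mul_zero, sub_zero]
      · rintro y ⟨hy0, hy1⟩
        have := hM_le_line hM' e1 hy0 hy1
        simp only
        linarith
    · have hx2 : x = 1 - 1 / M := by
        by_contra hne
        exact hx (level hM' _ hx0 (lt_of_le_of_ne hx1 hne))
      obtain ⟨C, hC⟩ := pick_line hM'
      refine ⟨fun y => (1 - 1 / M) * (1 - 3 / M) + C * ((1 - 1 / M) - y) + 4 * κ * y ^ 2, by fun_prop, ?_, ?_⟩
      · simp only [hx2, end_value hM', sub_self, mul_zero, add_zero]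
      · rintro y ⟨hy0, hy1⟩
        obtain ⟨f, -, g, hg, -, h4, h5⟩ := hM_attained hM' hy0 hy1
        have h6 := hC g hg
        rw [h5, h4, Complex.ofReal_re, Complex.ofReal_re] at h6
        have e : 2 * y / 2 = y := by ring
        rw [e] at h6
        simp only
        linarith
  have hne : (Icc (0 : ℝ) (1 - 1 / M)).Nonempty := ⟨0, le_rfl, hX.le⟩
  obtain ⟨x, ⟨hx0, hx1⟩, hx⟩ := husc.exists_isMaxOn hne isCompact_Icc
  exact ⟨x, hx0, hx1, fun y hy0 hy1 => hx ⟨hy0, hy1⟩⟩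

theorem hM_zero_pos {M : ℝ} (hM' : 1 < M) : 0 < hM M 0 := by
  have hM0 : 0 < M := by linarith
  have hX : 0 < 1 - 1 / M := by
    have : 1 / M < 1 := by rw [div_lt_one hM0]; exact hM'
    linarith
  have h1 : 0 < 1 - 1 / M ^ 2 := by
    rw [sub_pos, div_lt_one (by positivity)]; nlinarith
  set a := Real.sqrt (1 - 1 / M ^ 2) with ha
  have ha2 : a ^ 2 = 1 - 1 / M ^ 2 := Real.sq_sqrt h1.le
  have ha0 : 0 < a := Real.sqrt_pos.mpr h1
  have hM2 : 0 < 1 / M ^ 2 := by positivity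
  have ha1 : a < 1 := by nlinarith
  obtain ⟨hT, hl⟩ := B5M.B11_sym ha0 ha1
  have hll : ll a (-a) = Real.log M := by
    have h5 : Real.log (1 / M ^ 2) = -(2 * Real.log M) := by
      rw [one_div, Real.log_inv, Real.log_pow]; push_cast; ring
    rw [hl, ha2, sub_sub_cancel, h5]
    ring
  have hP : Par M a (-a) := ⟨by linarith, by linarith, ha1, hll⟩
  obtain ⟨f, -, g, hg, -, h4, h5⟩ := slit_map hM' hP
  have hx : xx a (-a) = 0 := by unfold xx; rw [hT]; ring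
  have hV : Vc a (-a) = 1 - 1 / M ^ 2 := by unfold Vc; rw [hT, ← ha2]; ring
  have h6 := (le_hM hM' hg (by rw [h4, Complex.ofReal_re, hx]; simp)).2
  rw [h5, h4, Complex.ofReal_re, Complex.ofReal_re, hx, hV] at h6
  have e : (2 : ℝ) * 0 / 2 = 0 := by ring
  rw [e] at h6
  linarith

/-- the maximum of `|c₂ + κ c₁²|` -/
theorem max_kappa {M κ : ℝ} (hM' : 1 < M) (hκ : 0 ≤ κ) : ∃ V : ℝ,
    (∀ g : ℂ → ℂ, Star.LogClass M g → ‖deriv (deriv g) 0 / 2 + (κ : ℂ) * deriv g 0 ^ 2‖ ≤ V) ∧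
    (∃ f ∈ Star.StarClass M, ∃ g : ℂ → ℂ, Star.LogClass M g ∧
      (∀ z ∈ ball (0 : ℂ) 1, f z = z * Complex.exp (g z)) ∧
      ‖deriv (deriv g) 0 / 2 + (κ : ℂ) * deriv g 0 ^ 2‖ = V) ∧
    ((∃ a b : ℝ, Par M a b ∧ V = Vc a b + 4 * κ * xx a b ^ 2) ∨
      V = (1 - 1 / M) * (1 - 3 / M) + 4 * κ * (1 - 1 / M) ^ 2) := by
  have hM0 : 0 < M := by linarith
  have hX : 0 < 1 - 1 / M := by
    have : 1 / M < 1 := by rw [div_lt_one hM0]; exact hM'
    linarith
  obtain ⟨x, hx0, hx1, hmax⟩ := exists_max (κ := κ) hM'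
  have hpos : 0 < hM M x + 4 * κ * x ^ 2 := by
    have h1 := hmax 0 le_rfl hX.le
    have h2 := hM_zero_pos hM'
    nlinarith
  refine ⟨hM M x + 4 * κ * x ^ 2, fun g hg => ?_, ?_, ?_⟩
  · refine norm_le_kappa hκ (fun g hg h0 => ?_) hg
    obtain ⟨h1, h2⟩ := le_hM hM' hg h0
    have h3 := hmax _ (by linarith) h1
    have e : 4 * κ * ((deriv g 0).re / 2) ^ 2 = κ * (deriv g 0).re ^ 2 := by ring
    rw [e] at h3
    linarith
  · obtain ⟨f, hf, g, hg, hfg, h4, h5⟩ := hM_attained hM' hx0 hx1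
    refine ⟨f, hf, g, hg, hfg, ?_⟩
    rw [h4, h5]
    have e : ((hM M x : ℝ) : ℂ) + (κ : ℂ) * ((2 * x : ℝ) : ℂ) ^ 2 =
        ((hM M x + 4 * κ * x ^ 2 : ℝ) : ℂ) := by push_cast; ring
    rw [e, Complex.norm_real, Real.norm_eq_abs, abs_of_pos hpos]
  · by_cases hx : ∃ a b : ℝ, Par M a b ∧ xx a b = x
    · obtain ⟨a, b, e1, e2, e3⟩ := hM_spec hx
      exact Or.inl ⟨a, b, e1, by rw [e2, e3]⟩
    · have hx2 : x = 1 - 1 / M := by
        by_contra hne
        exact hx (level hM' _ hx0 (lt_of_le_of_ne hx1 hne))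
      right
      rw [hx2, end_value hM']

end Pool.Agent.Y774.FS
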