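import Pool.Agent.Y774.FS.Core

set_option autoImplicit false

open Metric Set

namespace Pool.Agent.Y774.FS

open Pool.Agent.Helper974

/-- the second coefficient -/
noncomputable def coeff2 (f : ℂ → ℂ) : ℂ := iteratedDeriv 2 f 0 / 2

/-- the functional `a₃ - l a₂²` -/
noncomputable def fs (l : ℝ) (f : ℂ → ℂ) : ℂ := Star3.coeff3 f - (l : ℂ) * coeff2 f ^ 2

/-- parameters of the slit maps of maximum modulus `M` -/
def IsSlit (M a b : ℝ) : Prop := -1 < b ∧ b < a ∧ a < 1 ∧ Star3.logMax a b = Real.log M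

/-- half of the second coefficient -/
noncomputable def X (a b : ℝ) : ℝ := (a + b) / 2 - Star3.T a b

/-- the number `a₃ - a₂² / 2` of the slit map -/
noncomputable def Y (a b : ℝ) : ℝ := 3 / 4 * (a + b) ^ 2 - (a + b) * Star3.T a b - a * b

lemma slit_iff {M a b : ℝ} : IsSlit M a b ↔ Par M a b := Iff.rfl

lemma X_eq (a b : ℝ) : Star.xx a b = X a b := rfl

lemma Y_eq (a b : ℝ) : Star.Vc a b = Y a b := by
  have hT : Star.TT a b = Star3.T a b := rfl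
  unfold Star.Vc Y
  rw [hT]; ring

/-- the class through logarithms -/
lemma class_log {M : ℝ} {f : ℂ → ℂ} (hf : f ∈ Star3.StarClass M) : ∃ g : ℂ → ℂ, Star.LogClass M g ∧
    coeff2 f = deriv g 0 ∧ Star3.coeff3 f = deriv (deriv g) 0 / 2 + (deriv g 0) ^ 2 / 2 := by
  obtain ⟨h1, h2, h3, h4, h5, h6⟩ := hf
  obtain ⟨g, hg, hfg⟩ := StarP.Red.exists_log h1 h2 h3 h4 (Star.star_smul h5) h6
  exact ⟨g, ofRed hg, second_coeff hg.diff hg.zero hfg, StarP.Red.third_coeff hg.diff hg.zero hfg⟩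

lemma coeffs {M : ℝ} {f g : ℂ → ℂ} (hg : Star.LogClass M g)
    (hfg : ∀ z ∈ ball (0 : ℂ) 1, f z = z * Complex.exp (g z)) :
    coeff2 f = deriv g 0 ∧ Star3.coeff3 f = deriv (deriv g) 0 / 2 + (deriv g 0) ^ 2 / 2 :=
  ⟨second_coeff hg.diff hg.zero hfg, StarP.Red.third_coeff hg.diff hg.zero hfg⟩

lemma fs_eq {f g : ℂ → ℂ} (l : ℝ) (h1 : coeff2 f = deriv g 0)
    (h2 : Star3.coeff3 f = deriv (deriv g) 0 / 2 + (deriv g 0) ^ 2 / 2) :
    fs l f = deriv (deriv g) 0 / 2 + ((1 / 2 - l : ℝ) : ℂ) * deriv g 0 ^ 2 := by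
  unfold fs
  rw [h1, h2]
  push_cast
  ring

theorem region {M : ℝ} (hM : 1 < M) :
    (∀ f ∈ Star3.StarClass M, ‖coeff2 f‖ ≤ 2 * (1 - 1 / M)) ∧
    (∀ x : ℝ, 0 ≤ x → x < 1 - 1 / M → ∃ a b : ℝ, IsSlit M a b ∧ X a b = x) ∧
    (∀ a b : ℝ, IsSlit M a b → IsGreatest
      ((fun f => (fs (1 / 2) f).re) '' {f | f ∈ Star3.StarClass M ∧ (coeff2 f).re = 2 * X a b}) (Y a b)) ∧
    IsGreatest ((fun f => (fs (1 / 2) f).re) '' {f | f ∈ Star3.StarClass M ∧
      (coeff2 f).re = 2 * (1 - 1 / M)}) ((1 - 1 / M) * (1 - 3 / M)) := by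
  have hMp : 0 < M := by linarith
  have half : ∀ {f g : ℂ → ℂ}, coeff2 f = deriv g 0 →
      Star3.coeff3 f = deriv (deriv g) 0 / 2 + (deriv g 0) ^ 2 / 2 → fs (1 / 2) f = deriv (deriv g) 0 / 2 := by
    intro f g h1 h2
    rw [fs_eq (1 / 2) h1 h2]
    simp
  refine ⟨fun f hf => ?_, fun x hx0 hx1 => level hM x hx0 hx1, fun a b hab => ⟨?_, ?_⟩, ?_, ?_⟩
  · obtain ⟨g, hg, h1, -⟩ := class_log hf
    rw [h1]
    exact second_le hM hg
  · obtain ⟨f, hf, g, hg, hfg, h4, h5⟩ := slit_map hM hab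
    obtain ⟨e1, e2⟩ := coeffs hg hfg
    refine ⟨f, ⟨hf, ?_⟩, ?_⟩
    · rw [e1, h4, Complex.ofReal_re]; rfl
    · simp only
      rw [half e1 e2, h5, Complex.ofReal_re, Y_eq]
  · rintro _ ⟨f, ⟨hf, hx⟩, rfl⟩
    obtain ⟨g, hg, h1, h2⟩ := class_log hf
    have h3 := slit_line hM hab hg
    simp only
    rw [half h1 h2]
    rw [h1] at hx
    rw [hx, X_eq, Y_eq, show 2 * X a b / 2 - X a b = 0 by ring, mul_zero, sub_zero] at h3
    exact h3
  · obtain ⟨f, hf, g, hg, hfg, h4, h5⟩ := pick_log hM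
    obtain ⟨e1, e2⟩ := coeffs hg hfg
    refine ⟨f, ⟨hf, ?_⟩, ?_⟩
    · rw [e1, h4, Complex.ofReal_re]
    · simp only
      rw [half e1 e2, h5, Complex.ofReal_re]
  · rintro _ ⟨f, ⟨hf, hx⟩, rfl⟩
    obtain ⟨g, hg, h1, h2⟩ := class_log hf
    simp only
    rw [half h1 h2]
    rw [h1] at hx
    refine ((Star.one_slit hM hg).2 (by rw [hx]; ring)).trans (le_of_eq ?_)
    field_simp
    ring

theorem maximum {M l : ℝ} (hM : 1 < M) (hl : l ≤ 1 / 2) : ∃ V : ℝ,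
    IsGreatest ((fun f => ‖fs l f‖) '' Star3.StarClass M) V ∧
    IsGreatest ({v | ∃ a b : ℝ, IsSlit M a b ∧ v = Y a b + 2 * (1 - 2 * l) * X a b ^ 2} ∪
      {(1 - 1 / M) * (1 - 3 / M) + 2 * (1 - 2 * l) * (1 - 1 / M) ^ 2}) V := by
  obtain ⟨V, hV1, hV2, hV3⟩ := max_kappa (κ := 1 / 2 - l) hM (by linarith)
  refine ⟨V, ⟨?_, ?_⟩, ?_, ?_⟩
  · obtain ⟨f, hf, g, hg, hfg, h⟩ := hV2
    obtain ⟨e1, e2⟩ := coeffs hg hfg
    refine ⟨f, hf, ?_⟩
    simp only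
    rw [fs_eq l e1 e2]
    exact h
  · rintro _ ⟨f, hf, rfl⟩
    obtain ⟨g, hg, h1, h2⟩ := class_log hf
    simp only
    rw [fs_eq l h1 h2]
    exact hV1 g hg
  · rcases hV3 with ⟨a, b, hab, h⟩ | h
    · left
      refine ⟨a, b, hab, ?_⟩
      rw [h, X_eq, Y_eq]; ring
    · right
      rw [mem_singleton_iff, h]; ring
  · rintro v (⟨a, b, hab, rfl⟩ | hv)
    · obtain ⟨f, hf, g, hg, hfg, h4, h5⟩ := slit_map hM hab
      have h6 := hV1 g hg
      rw [h4, h5] at h6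
      have e : ((Star.Vc a b : ℝ) : ℂ) + ((1 / 2 - l : ℝ) : ℂ) * ((2 * Star.xx a b : ℝ) : ℂ) ^ 2 =
          ((Y a b + 2 * (1 - 2 * l) * X a b ^ 2 : ℝ) : ℂ) := by
        rw [X_eq, Y_eq]; push_cast; ring
      rw [e, Complex.norm_real, Real.norm_eq_abs] at h6
      exact (le_abs_self _).trans h6
    · rw [mem_singleton_iff] at hv
      subst hv
      obtain ⟨f, hf, g, hg, hfg, h4, h5⟩ := pick_log hM
      have h6 := hV1 g hg
      rw [h4, h5] at h6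
      have e : (((1 - 1 / M) * (1 - 3 / M) : ℝ) : ℂ) + ((1 / 2 - l : ℝ) : ℂ) *
          ((2 * (1 - 1 / M) : ℝ) : ℂ) ^ 2 =
          (((1 - 1 / M) * (1 - 3 / M) + 2 * (1 - 2 * l) * (1 - 1 / M) ^ 2 : ℝ) : ℂ) := by
        push_cast; ring
      rw [e, Complex.norm_real, Real.norm_eq_abs] at h6
      exact (le_abs_self _).trans h6

/-- the symmetric slit map -/
theorem sym_slit {M : ℝ} (hM' : 1 < M) : ∃ a : ℝ, Par M a (-a) ∧ Star.xx a (-a) = 0 ∧
    Star.Vc a (-a) = 1 - 1 / M ^ 2 ∧ Star.Lc a (-a) = 0 := by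
  have hM0 : 0 < M := by linarith
  have h1 : 0 < 1 - 1 / M ^ 2 := by
    rw [sub_pos, div_lt_one (by positivity)]; nlinarith
  set a := Real.sqrt (1 - 1 / M ^ 2) with ha
  have ha2 : a ^ 2 = 1 - 1 / M ^ 2 := Real.sq_sqrt h1.le
  have ha0 : 0 < a := Real.sqrt_pos.mpr h1
  have hM2 : 0 < 1 / M ^ 2 := by positivity
  have ha1 : a < 1 := by nlinarith
  obtain ⟨hT, hl⟩ := Star.B5M.B11_sym ha0 ha1
  have hll : Star.ll a (-a) = Real.log M := by
    have h5 : Real.log (1 / M ^ 2) = -(2 * Real.log M) := by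
      rw [one_div, Real.log_inv, Real.log_pow]; push_cast; ring
    rw [hl, ha2, sub_sub_cancel, h5]
    ring
  refine ⟨a, ⟨by linarith, by linarith, ha1, hll⟩, ?_, ?_, ?_⟩
  · unfold Star.xx; rw [hT]; ring
  · unfold Star.Vc; rw [hT, ← ha2]; ring
  · have h2 : Star.EI (fun u => u * ((a - u) * (u - -a))) a (-a) =
        - Star.EI (fun u => u * ((a - u) * (u - -a))) a (-a) := by
      unfold Star.EI
      have h3 := intervalIntegral.integral_comp_sub_left (a := 0) (b := Real.pi)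
        (fun ψ => (fun u => u * ((a - u) * (u - -a))) (Star.U a (-a) ψ) /
          Real.sqrt (1 - Star.U a (-a) ψ ^ 2)) Real.pi
      rw [sub_zero, sub_self] at h3
      conv_lhs => rw [← h3]
      rw [← intervalIntegral.integral_neg]
      congr 1
      funext ψ
      have h4 : Star.U a (-a) (Real.pi - ψ) = - Star.U a (-a) ψ := by
        unfold Star.U
        rw [Real.cos_pi_sub]; ring
      simp only
      rw [h4, neg_sq, ← neg_div]
      congr 1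
      ring
    have h3 : Star.EI (fun u => u * ((a - u) * (u - -a))) a (-a) = 0 := by linarith
    have h5 : Star.cc a (-a) = 0 := by
      unfold Star.cc Star.mean
      rw [h3, zero_div, zero_div]
    unfold Star.Lc
    rw [h5]; ring

/-- the second logarithmic coefficient -/
theorem log_coeff {M : ℝ} (hM : 1 < M) {g : ℂ → ℂ} (hg : Star.LogClass M g) :
    ‖deriv (deriv g) 0 / 2‖ ≤ 1 - 1 / M ^ 2 := by
  obtain ⟨a, ha, h1, h2, h3⟩ := sym_slit hM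
  have := norm_le_kappa (M := M) (P := 1 - 1 / M ^ 2) (κ := 0) le_rfl (fun g hg _ => ?_) hg
  · simpa using this
  · have h4 := slit_line hM ha hg
    rw [h2, h3, zero_mul, sub_zero] at h4
    rw [zero_mul, add_zero]
    exact h4

theorem sym_value {M l : ℝ} (hM : 1 < M) : ∃ f ∈ Star3.StarClass M, ‖fs l f‖ = 1 - 1 / M ^ 2 := by
  obtain ⟨a, ha, h1, h2, h3⟩ := sym_slit hM
  obtain ⟨f, hf, g, hg, hfg, h4, h5⟩ := slit_map hM ha
  obtain ⟨e1, e2⟩ := coeffs hg hfg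
  refine ⟨f, hf, ?_⟩
  have hM0 : 0 < M := by linarith
  have h6 : 0 < 1 - 1 / M ^ 2 := by
    rw [sub_pos, div_lt_one (by positivity)]; nlinarith
  rw [fs_eq l e1 e2, h4, h5, h1, h2]
  simp only [mul_zero, Complex.ofReal_zero, ne_eq, OfNat.ofNat_ne_zero, not_false_eq_true, zero_pow, add_zero]
  rw [Complex.norm_real, Real.norm_eq_abs, abs_of_pos h6]

theorem half_value {M : ℝ} (hM : 1 < M) :
    IsGreatest ((fun f => ‖fs (1 / 2) f‖) '' Star3.StarClass M) (1 - 1 / M ^ 2) := by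
  refine ⟨?_, ?_⟩
  · obtain ⟨f, hf, h⟩ := sym_value (l := 1 / 2) hM
    exact ⟨f, hf, h⟩
  · rintro _ ⟨f, hf, rfl⟩
    obtain ⟨g, hg, h1, h2⟩ := class_log hf
    simp only
    rw [fs_eq (1 / 2) h1 h2]
    simpa using log_coeff hM hg

/-- small `M` -/
theorem small {M l : ℝ} (hM : 1 < M) (hl0 : 0 ≤ l) (hl : l ≤ 1 / 2)
    (h : IsGreatest ((fun f => ‖Star3.coeff3 f‖) '' Star3.StarClass M) (1 - 1 / M ^ 2)) :
    IsGreatest ((fun f => ‖fs l f‖) '' Star3.StarClass M) (1 - 1 / M ^ 2) := by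
  refine ⟨?_, ?_⟩
  · obtain ⟨f, hf, h⟩ := sym_value (l := l) hM
    exact ⟨f, hf, h⟩
  · rintro _ ⟨f, hf, rfl⟩
    have h1 : ‖Star3.coeff3 f‖ ≤ 1 - 1 / M ^ 2 := h.2 ⟨f, hf, rfl⟩
    have h2 : ‖fs (1 / 2) f‖ ≤ 1 - 1 / M ^ 2 := (half_value hM).2 ⟨f, hf, rfl⟩
    have e : fs l f = ((1 - 2 * l : ℝ) : ℂ) * Star3.coeff3 f + ((2 * l : ℝ) : ℂ) * fs (1 / 2) f := by
      unfold fs; push_cast; ring
    simp only
    rw [e]
    refine (norm_add_le _ _).trans ?_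
    rw [norm_mul, norm_mul, Complex.norm_real, Complex.norm_real, Real.norm_eq_abs, Real.norm_eq_abs,
      abs_of_nonneg (by linarith), abs_of_nonneg (by linarith)]
    nlinarith [mul_le_mul_of_nonneg_left h1 (show (0 : ℝ) ≤ 1 - 2 * l by linarith),
      mul_le_mul_of_nonneg_left h2 (show (0 : ℝ) ≤ 2 * l by linarith)]

/-- large `M` -/
theorem large {M l : ℝ} (hM : 1 < M) (hM53 : 5 / 3 ≤ M) (hl : l ≤ 0)
    (h : IsGreatest ((fun f => ‖Star3.coeff3 f‖) '' Star3.StarClass M) (3 - 8 / M + 5 / M ^ 2)) :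
    IsGreatest ((fun f => ‖fs l f‖) '' Star3.StarClass M)
      ((1 - 1 / M) * (3 - 5 / M) - 4 * l * (1 - 1 / M) ^ 2) := by
  have hM0 : 0 < M := by linarith
  have hX : 0 < 1 - 1 / M := by
    have : 1 / M < 1 := by rw [div_lt_one hM0]; exact hM
    linarith
  have e0 : 3 - 8 / M + 5 / M ^ 2 = (1 - 1 / M) * (3 - 5 / M) := by field_simp; ring
  have hpos : 0 ≤ (1 - 1 / M) * (3 - 5 / M) := by
    have : 5 / M ≤ 3 := by rw [div_le_iff₀ hM0]; linarith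
    exact mul_nonneg hX.le (by linarith)
  refine ⟨?_, ?_⟩
  · obtain ⟨f, hf, g, hg, hfg, h4, h5⟩ := pick_log hM
    obtain ⟨e1, e2⟩ := coeffs hg hfg
    refine ⟨f, hf, ?_⟩
    simp only
    have e : fs l f = (((1 - 1 / M) * (3 - 5 / M) - 4 * l * (1 - 1 / M) ^ 2 : ℝ) : ℂ) := by
      rw [fs_eq l e1 e2, h4, h5]; push_cast; ring
    rw [e, Complex.norm_real, Real.norm_eq_abs, abs_of_nonneg]
    nlinarith [sq_nonneg (1 - 1 / M)]
  · rintro _ ⟨f, hf, rfl⟩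
    have h1 : ‖Star3.coeff3 f‖ ≤ 3 - 8 / M + 5 / M ^ 2 := h.2 ⟨f, hf, rfl⟩
    have h2 := (region hM).1 f hf
    have h3 : ‖(l : ℂ) * coeff2 f ^ 2‖ ≤ -l * (2 * (1 - 1 / M)) ^ 2 := by
      rw [norm_mul, norm_pow, Complex.norm_real, Real.norm_eq_abs, abs_of_nonpos hl]
      exact mul_le_mul_of_nonneg_left (pow_le_pow_left₀ (norm_nonneg _) h2 2) (by linarith)
    simp only
    unfold fs
    refine (norm_sub_le _ _).trans ?_
    rw [e0] at h1
    nlinarith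

end Pool.Agent.Y774.FS
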