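import Mathlib
import Pool.Agent.Helper974.Star.FinalAll

/-!
# MP_03314f_an: the sharp inequality between the second and the third coefficient of bounded
starlike functions, and the functionals `a₃ - λ a₂²`, `λ ≤ 1/2`
-/

set_option autoImplicit false

open Complex Filter Topology Metric Set MeasureTheory

namespace Pool.Agent.Y774.FS

open Pool.Agent.Helper974 Pool.Agent.Helper974.Star

/-- second coefficient through the logarithm -/
lemma second_coeff {f g : ℂ → ℂ} (hg : DifferentiableOn ℂ g (ball 0 1)) (hg0 : g 0 = 0)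
    (hfg : ∀ z ∈ ball (0 : ℂ) 1, f z = z * Complex.exp (g z)) :
    iteratedDeriv 2 f 0 / 2 = deriv g 0 := by
  have hb : ball (0 : ℂ) 1 ∈ 𝓝 (0 : ℂ) := isOpen_ball.mem_nhds (by simp)
  have hopen : ∀ z ∈ ball (0 : ℂ) 1, ball (0 : ℂ) 1 ∈ 𝓝 z := fun z hz => isOpen_ball.mem_nhds hz
  have hg' := hg.deriv isOpen_ball
  have d0 : ∀ z ∈ ball (0 : ℂ) 1, HasDerivAt g (deriv g z) z := fun z hz =>
    (hg.differentiableAt (hopen z hz)).hasDerivAt
  have d1 : ∀ z ∈ ball (0 : ℂ) 1, HasDerivAt (deriv g) (deriv (deriv g) z) z := fun z hz =>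
    (hg'.differentiableAt (hopen z hz)).hasDerivAt
  have e0 : ∀ z ∈ ball (0 : ℂ) 1, HasDerivAt f ((1 + z * deriv g z) * Complex.exp (g z)) z := by
    intro z hz
    have h1 := (hasDerivAt_id z).mul (d0 z hz).cexp
    have h2 : f =ᶠ[𝓝 z] fun z => z * Complex.exp (g z) := by
      filter_upwards [hopen z hz] with w hw using hfg w hw
    have h3 := h1.congr_of_eventuallyEq (f₁ := f) h2
    convert! h3 using 1
    simp
    ring
  have h00 : (0 : ℂ) ∈ ball (0 : ℂ) 1 := by simp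
  have e1 : HasDerivAt (deriv f) (2 * deriv g 0) 0 := by
    have h2 : deriv f =ᶠ[𝓝 0] fun z => (1 + z * deriv g z) * Complex.exp (g z) := by
      filter_upwards [hb] with w hw using (e0 w hw).deriv
    have h1 := ((((hasDerivAt_id (0 : ℂ)).mul (d1 0 h00)).const_add 1).mul (d0 0 h00).cexp)
    have h3 := h1.congr_of_eventuallyEq (f₁ := deriv f) h2
    convert! h3 using 1
    simp [hg0]
    ring
  have h4 : iteratedDeriv 2 f 0 = deriv (deriv f) 0 := by
    rw [iteratedDeriv_eq_iterate]; rfl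
  rw [h4, e1.deriv]
  ring

lemma toRed {M : ℝ} {g : ℂ → ℂ} (hg : Star.LogClass M g) : StarP.Red.LogClass M g :=
  ⟨hg.diff, hg.zero, hg.star, hg.bdd⟩

lemma ofRed {M : ℝ} {g : ℂ → ℂ} (hg : StarP.Red.LogClass M g) : Star.LogClass M g :=
  ⟨hg.diff, hg.zero, hg.star, hg.bdd⟩

/-- reduction of the bound on `|c₂ + κ c₁²|` to the real functional -/
lemma norm_le_kappa {M P κ : ℝ} (hκ : 0 ≤ κ) (H : ∀ g, Star.LogClass M g → 0 ≤ (deriv g 0).re →
      (deriv (deriv g) 0 / 2).re + κ * (deriv g 0).re ^ 2 ≤ P) {g : ℂ → ℂ} (hg : Star.LogClass M g) :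
    ‖deriv (deriv g) 0 / 2 + (κ : ℂ) * deriv g 0 ^ 2‖ ≤ P := by
  set A := deriv (deriv g) 0 / 2 + (κ : ℂ) * deriv g 0 ^ 2 with hA
  obtain ⟨ω, hω1, hω2, hω3⟩ : ∃ ω : ℂ, ‖ω‖ = 1 ∧ ω ^ 2 * A = ‖A‖ ∧ 0 ≤ (ω * deriv g 0).re := by
    have h1 : ‖Complex.exp ((-(Complex.arg A) / 2 : ℝ) * I)‖ = 1 := Complex.norm_exp_ofReal_mul_I _
    have h2 : Complex.exp ((-(Complex.arg A) / 2 : ℝ) * I) ^ 2 * A = ‖A‖ := by
      have hA' := Complex.norm_mul_exp_arg_mul_I A
      rw [← Complex.exp_nat_mul]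
      have : Complex.exp (((2 : ℕ) : ℂ) * ((-(Complex.arg A) / 2 : ℝ) * I)) *
          Complex.exp (Complex.arg A * I) = 1 := by
        rw [← Complex.exp_add, ← Complex.exp_zero]
        congr 1
        push_cast
        ring
      linear_combination (‖A‖ : ℂ) * this -
        Complex.exp (((2 : ℕ) : ℂ) * ((-(Complex.arg A) / 2 : ℝ) * I)) * hA'
    rcases le_total 0 (Complex.exp ((-(Complex.arg A) / 2 : ℝ) * I) * deriv g 0).re with h3 | h3
    · exact ⟨_, h1, h2, h3⟩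
    · refine ⟨-Complex.exp ((-(Complex.arg A) / 2 : ℝ) * I), by rw [norm_neg, h1],
        by rw [neg_sq, h2], ?_⟩
      rw [neg_mul, Complex.neg_re]
      linarith
  obtain ⟨hr1, hr2, hr3⟩ := (toRed hg).rot hω1
  have h4 := H _ (ofRed hr1) (by rw [hr2]; exact hω3)
  rw [hr2, hr3] at h4
  have h5 : (‖A‖ : ℝ) = (ω ^ 2 * deriv (deriv g) 0 / 2).re +
      ((κ : ℂ) * (ω * deriv g 0) ^ 2).re := by
    rw [← Complex.add_re]
    have : ω ^ 2 * deriv (deriv g) 0 / 2 + (κ : ℂ) * (ω * deriv g 0) ^ 2 = ω ^ 2 * A := by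
      rw [hA]; ring
    rw [this, hω2, Complex.ofReal_re]
  have h6 : ((κ : ℂ) * (ω * deriv g 0) ^ 2).re ≤ κ * (ω * deriv g 0).re ^ 2 := by
    rw [Complex.re_ofReal_mul, pow_two, Complex.mul_re]
    have := mul_nonneg hκ (mul_self_nonneg (ω * deriv g 0).im)
    nlinarith
  linarith

/-- the modulus of the second coefficient -/
lemma second_le {M : ℝ} (hM : 1 < M) {g : ℂ → ℂ} (hg : Star.LogClass M g) :
    ‖deriv g 0‖ ≤ 2 * (1 - 1 / M) := by
  set A := deriv g 0 with hA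
  obtain ⟨ω, hω1, hω2⟩ : ∃ ω : ℂ, ‖ω‖ = 1 ∧ ω * A = ‖A‖ := by
    refine ⟨Complex.exp ((-(Complex.arg A) : ℝ) * I), Complex.norm_exp_ofReal_mul_I _, ?_⟩
    have hA' := Complex.norm_mul_exp_arg_mul_I A
    have : Complex.exp ((-(Complex.arg A) : ℝ) * I) * Complex.exp (Complex.arg A * I) = 1 := by
      rw [← Complex.exp_add, ← Complex.exp_zero]
      congr 1
      push_cast
      ring
    linear_combination (‖A‖ : ℂ) * this - Complex.exp ((-(Complex.arg A) : ℝ) * I) * hA'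
  obtain ⟨hr1, hr2, -⟩ := (toRed hg).rot hω1
  have h := (one_slit hM (ofRed hr1)).1
  rw [hr2, hω2, Complex.ofReal_re] at h
  linarith

/-- the inequality at the one slit map -/
lemma pick_line {M : ℝ} (hM : 1 < M) : ∃ C : ℝ, ∀ g : ℂ → ℂ, Star.LogClass M g →
    (deriv (deriv g) 0 / 2).re ≤ (1 - 1 / M) * (1 - 3 / M) + C * ((1 - 1 / M) - (deriv g 0).re / 2) := by
  have hMp : 0 < M := by linarith
  set t : ℝ := 1 / M with ht
  have ht0 : 0 < t := by positivity
  have ht1 : t < 1 := by rw [ht, div_lt_one hMp]; exact hM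
  have hMt : M * t = 1 := by rw [ht]; field_simp
  obtain ⟨-, hK, -⟩ := B10pM.B10_ccP (a := 1 - 2 * t) (t := t) (by linarith) (by linarith) (by ring)
  have hLL : StarP.Cert.LL t = Real.log ((1 + Real.sqrt (1 - t)) / Real.sqrt t) := rfl
  set K : ℝ := 2 * Real.sqrt (1 - t) - 2 * t * Real.log ((1 + Real.sqrt (1 - t)) / Real.sqrt t) with hKdef
  set A0 : ℝ := Real.sqrt (1 - t) * t - t * (2 - t) * StarP.Cert.LL t with hA0
  have hG : ∀ c : ℝ, 4 * StarP.Cert.Gam t c 1 = A0 - c * K := by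
    intro c
    rw [StarP.Cert.Gam_one c ht0 ht1, hKdef, hA0, hLL]; ring
  set c : ℝ := min (1 - 2 * t) (A0 / K) with hc
  refine ⟨4 * (t - c), fun g hg => ?_⟩
  have h1 : c ≤ 1 - 2 * t := min_le_left _ _
  have h2 : c ≤ A0 / K := min_le_right _ _
  have h3 : 0 ≤ StarP.Cert.Gam t c 1 := by
    have := hG c
    rw [le_div_iff₀ hK] at h2
    linarith
  have := StarP.Cert.cert ht0 ht1 h1 h3 hMp hg.diff hg.zero hg.star hg.bdd
  rw [hMt, Real.log_one, mul_zero] at this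
  have e : 3 / M = 3 * t := by rw [ht]; ring
  rw [e]
  linarith

/-- the Pick function belongs to the class of logarithms -/
lemma pick_log {M : ℝ} (hM : 1 < M) : ∃ f ∈ Star.StarClass M, ∃ g : ℂ → ℂ, Star.LogClass M g ∧
    (∀ z ∈ ball (0 : ℂ) 1, f z = z * Complex.exp (g z)) ∧
    deriv g 0 = ((2 * (1 - 1 / M) : ℝ) : ℂ) ∧
    deriv (deriv g) 0 / 2 = (((1 - 1 / M) * (1 - 3 / M) : ℝ) : ℂ) := by
  have hMp : 0 < M := by linarith
  have ht : 0 < 1 / M := by positivity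
  have ht1 : 1 / M < 1 := by rw [div_lt_one hMp]; exact hM
  have hf : StarP.Pick.fP (1 / M) ∈ Star.StarClass M := by
    refine ⟨StarP.Pick.fP_diff ht ht1, StarP.Pick.fP_inj ht ht1, StarP.Pick.fP_zero _,
      StarP.Pick.fP_deriv ht ht1, ?_, ?_⟩
    · intro w hw a b ha hb hab
      rw [smul_zero, zero_add, Complex.real_smul]
      exact StarP.Pick.fP_star ht ht1 hw hb (by linarith)
    · intro z hz
      have := StarP.Pick.fP_norm ht ht1 (z := z) (by simpa using hz)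
      rw [one_div_one_div] at this
      exact this.le
  have hd : DifferentiableOn ℂ (StarP.Cert.gP (1 / M)) (ball 0 1) := fun z hz =>
    (StarP.Cert.gP_diffAt ht ht1 (by simpa using hz)).differentiableWithinAt
  have h0 : StarP.Cert.gP (1 / M) 0 = 0 := StarP.Cert.gP_zero _
  obtain ⟨g, hg, hfg⟩ := StarP.Red.exists_log hf.1 hf.2.1 hf.2.2.1 hf.2.2.2.1
    (Star.star_smul hf.2.2.2.2.1) hf.2.2.2.2.2
  -- both logarithms agree near zero
  have hb : ball (0 : ℂ) 1 ∈ 𝓝 (0 : ℂ) := isOpen_ball.mem_nhds (by simp)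
  have e1 : deriv g 0 = deriv (StarP.Cert.gP (1 / M)) 0 := by
    rw [← second_coeff hg.diff hg.zero hfg,
      ← second_coeff (f := StarP.Pick.fP (1 / M)) hd h0 (fun z _ => rfl)]
  have e2 : deriv (deriv g) 0 / 2 = deriv (deriv (StarP.Cert.gP (1 / M))) 0 / 2 := by
    have h3 := StarP.Red.third_coeff hg.diff hg.zero hfg
    have h4 := StarP.Red.third_coeff (f := StarP.Pick.fP (1 / M)) hd h0 (fun z _ => rfl)
    rw [h4, e1] at h3
    linear_combination -h3
  refine ⟨_, hf, g, ofRed hg, hfg, ?_, ?_⟩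
  · rw [e1, (StarP.Cert.gP_hasDeriv0 ht ht1).deriv]
    push_cast
    ring
  · rw [e2, (StarP.Cert.gP_hasDeriv2 ht ht1).deriv]
    push_cast
    ring

end Pool.Agent.Y774.FS
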